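import Mathlib

/-!
# Rectangles between two graphs: the action functional

`f`, `g` are two bounded uniformly continuous functions that agree, and are constant, on the left
of `t0` and on the right of `t1`; `F`, `G` are antiderivatives.  The critical points `(x, a, b)` of

`E (x, a, b) = F x - F (x + a) - G (x - r b) + G (x + a - r b) + r (b ^ 2 - a ^ 2) / 2`

are the rectangles with vertices `p = (x, f x)`, `p + v` on the graph of `f` and `p + i r v`,
`p + v + i r v` on the graph of `g`, where `v = a + i b`.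
-/

set_option autoImplicit false

open Set

namespace Pool.MP_7ec17a_gt.V

/-- The data: two functions, their antiderivatives, the aspect ratio and the bounds. -/
structure Dat where
  /-- lower function -/
  f : ℝ → ℝ
  /-- upper function -/
  g : ℝ → ℝ
  /-- antiderivative of `f` -/
  F : ℝ → ℝ
  /-- antiderivative of `g` -/
  G : ℝ → ℝ
  /-- aspect ratio -/
  r : ℝ
  /-- left end -/
  t0 : ℝ
  /-- right end -/
  t1 : ℝ
  /-- value on the left tail -/
  y0 : ℝ
  /-- value on the right tail -/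
  y1 : ℝ
  /-- bound of the two functions -/
  B : ℝ
  /-- bound of the oscillation of `G - F` -/
  M : ℝ
  hr : 0 < r
  h01 : t0 < t1
  hF : ∀ x, HasDerivAt F (f x) x
  hG : ∀ x, HasDerivAt G (g x) x
  hf : UniformContinuous f
  hg : UniformContinuous g
  hfB : ∀ x, |f x| ≤ B
  hgB : ∀ x, |g x| ≤ B
  hM : ∀ x y, (G y - F y) - (G x - F x) ≤ M
  hf0 : ∀ x, x ≤ t0 → f x = y0
  hg0 : ∀ x, x ≤ t0 → g x = y0
  hf1 : ∀ x, t1 ≤ x → f x = y1
  hg1 : ∀ x, t1 ≤ x → g x = y1

namespace Dat

variable (D : Dat)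

/-- The action functional. -/
noncomputable def E (z : ℝ × ℝ × ℝ) : ℝ :=
  D.F z.1 - D.F (z.1 + z.2.1) - D.G (z.1 - D.r * z.2.2) + D.G (z.1 + z.2.1 - D.r * z.2.2)
    + D.r * (z.2.2 ^ 2 - z.2.1 ^ 2) / 2

/-- First partial derivative. -/
noncomputable def e1 (z : ℝ × ℝ × ℝ) : ℝ :=
  D.f z.1 - D.f (z.1 + z.2.1) - D.g (z.1 - D.r * z.2.2) + D.g (z.1 + z.2.1 - D.r * z.2.2)

/-- Second partial derivative. -/
noncomputable def e2 (z : ℝ × ℝ × ℝ) : ℝ :=
  -D.f (z.1 + z.2.1) + D.g (z.1 + z.2.1 - D.r * z.2.2) - D.r * z.2.1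

/-- Third partial derivative. -/
noncomputable def e3 (z : ℝ × ℝ × ℝ) : ℝ :=
  D.r * (D.g (z.1 - D.r * z.2.2) - D.g (z.1 + z.2.1 - D.r * z.2.2) + z.2.2)

/-- Size of the gradient. -/
noncomputable def S (z : ℝ × ℝ × ℝ) : ℝ := |D.e1 z| + |D.e2 z| + |D.e3 z|

lemma S_nonneg (z : ℝ × ℝ × ℝ) : 0 ≤ D.S z := by
  unfold S; positivity

lemma contF : Continuous D.F := continuous_iff_continuousAt.2 fun x => (D.hF x).continuousAt

lemma contG : Continuous D.G := continuous_iff_continuousAt.2 fun x => (D.hG x).continuousAt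

lemma contE : Continuous D.E := by
  have h1 := D.contF
  have h2 := D.contG
  unfold E
  fun_prop

lemma conte1 : Continuous D.e1 := by
  have h1 := D.hf.continuous
  have h2 := D.hg.continuous
  unfold e1
  fun_prop

lemma conte2 : Continuous D.e2 := by
  have h1 := D.hf.continuous
  have h2 := D.hg.continuous
  unfold e2
  fun_prop

lemma conte3 : Continuous D.e3 := by
  have h2 := D.hg.continuous
  unfold e3
  fun_prop

lemma contS : Continuous D.S := by
  have h1 := D.conte1
  have h2 := D.conte2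
  have h3 := D.conte3
  unfold S
  fun_prop

lemma hasDerivAt_line (z w : ℝ × ℝ × ℝ) (t : ℝ) :
    HasDerivAt (fun t => D.E (z + t • w))
      (D.e1 (z + t • w) * w.1 + D.e2 (z + t • w) * w.2.1 + D.e3 (z + t • w) * w.2.2) t := by
  obtain ⟨x, a, b⟩ := z
  obtain ⟨u, c, d⟩ := w
  have hx : HasDerivAt (fun t : ℝ => x + t * u) u t := by
    simpa using ((hasDerivAt_id t).mul_const u).const_add x
  have ha : HasDerivAt (fun t : ℝ => a + t * c) c t := by
    simpa using ((hasDerivAt_id t).mul_const c).const_add a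
  have hb : HasDerivAt (fun t : ℝ => b + t * d) d t := by
    simpa using ((hasDerivAt_id t).mul_const d).const_add b
  have h1 := (D.hF (x + t * u)).comp t hx
  have h2 := (D.hF (x + t * u + (a + t * c))).comp t (hx.add ha)
  have h3 := (D.hG (x + t * u - D.r * (b + t * d))).comp t (hx.sub (hb.const_mul D.r))
  have h4 := (D.hG (x + t * u + (a + t * c) - D.r * (b + t * d))).comp t
    ((hx.add ha).sub (hb.const_mul D.r))
  have h5 := (((hb.pow 2).sub (ha.pow 2)).const_mul D.r).div_const 2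
  have h := (((h1.sub h2).sub h3).add h4).add h5
  refine (h.congr_deriv ?_).congr_of_eventuallyEq ?_
  · simp only [e1, e2, e3, Prod.smul_mk, Prod.mk_add_mk, smul_eq_mul]
    ring
  · filter_upwards with s
    simp [E, Function.comp]

/-- Tail formula. -/
lemma diff_of_const {H h : ℝ → ℝ} {y : ℝ} (hH : ∀ x, HasDerivAt H (h x) x) {s : Set ℝ}
    (hs : s.OrdConnected) (hy : ∀ x ∈ s, h x = y) {x x' : ℝ} (hx : x ∈ s) (hx' : x' ∈ s) :
    H x' - H x = y * (x' - x) := by
  have key : ∀ u v : ℝ, u ∈ s → v ∈ s → u < v → H v - H u = y * (v - u) := by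
    intro u v hu hv huv
    obtain ⟨c, hc, hc'⟩ := exists_hasDerivAt_eq_slope H h huv
      (fun x _ => (hH x).continuousAt.continuousWithinAt) (fun x _ => hH x)
    have hcs : c ∈ s := hs.out hu hv ⟨hc.1.le, hc.2.le⟩
    rw [hy c hcs] at hc'
    rw [eq_div_iff (sub_ne_zero.2 huv.ne')] at hc'
    linarith
  rcases lt_trichotomy x x' with h | h | h
  · exact key x x' hx hx' h
  · subst h; simp
  · have := key x' x hx' hx h
    linarith

/-- Lipschitz bound. -/
lemma diff_le {H h : ℝ → ℝ} {B : ℝ} (hH : ∀ x, HasDerivAt H (h x) x)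
    (hB : ∀ x, |h x| ≤ B) (x x' : ℝ) : |H x' - H x| ≤ B * |x' - x| := by
  have := Convex.norm_image_sub_le_of_norm_hasDerivWithin_le (f := H) (f' := h) (s := univ)
    (C := B) (x := x) (y := x') (fun x _ => (hH x).hasDerivWithinAt)
    (fun x _ => by rw [Real.norm_eq_abs]; exact hB x) convex_univ (mem_univ _) (mem_univ _)
  simpa [Real.norm_eq_abs] using this

lemma E_zero_a (x b : ℝ) : D.E (x, 0, b) = D.r * b ^ 2 / 2 := by
  simp [E]

lemma E_zero_b (x a : ℝ) : D.E (x, a, 0) ≤ D.M := by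
  have h := D.hM x (x + a)
  have h2 : 0 ≤ D.r * a ^ 2 / 2 := by have := D.hr; positivity
  simp only [E]
  have e1 : x - D.r * 0 = x := by ring
  have e2 : x + a - D.r * 0 = x + a := by ring
  rw [e1, e2]
  nlinarith

lemma E_lower (x a b : ℝ) : D.r * (b ^ 2 - a ^ 2) / 2 - 2 * D.B * |a| ≤ D.E (x, a, b) := by
  have h1 := diff_le D.hF D.hfB x (x + a)
  have h2 := diff_le D.hG D.hgB (x - D.r * b) (x + a - D.r * b)
  have e1 : x + a - x = a := by ring
  have e2 : x + a - D.r * b - (x - D.r * b) = a := by ring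
  rw [e1] at h1
  rw [e2] at h2
  have h3 := (abs_le.1 h1).2
  have h4 := (abs_le.1 h2).1
  simp only [E]
  nlinarith

end Dat

end Pool.MP_7ec17a_gt.V
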