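import Pool.Agent.Work.MP_7ec17a_gt_V.MountainPass

/-!
# Rectangles inscribed in a pair of graphs
-/

set_option autoImplicit false

open Set

namespace Pool.MP_7ec17a_gt.V

namespace Dat

variable (D : Dat)

/-- No vertex of a rectangle lies on the left tail. -/
lemma no_left (hA : ∀ u z, D.t0 ≤ u → D.t0 ≤ z →
      0 ≤ (u - D.t0) * (z - D.t0) + (D.f u - D.y0) * (D.g z - D.y0))
    {τ s u z : ℝ} (hs : τ < D.t0 → s = D.y0)
    (perp : (u - τ) * (z - τ) + (D.f u - s) * (D.g z - s) = 0)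
    (hu : u ≠ τ ∨ D.f u ≠ s) (hz : z ≠ τ ∨ D.g z ≠ s) : D.t0 ≤ τ := by
  by_contra hτ
  push Not at hτ
  have hs := hs hτ
  subst hs
  rcases le_or_gt u D.t0 with hu0 | hu0
  · have e := D.hf0 u hu0
    rw [e, sub_self, zero_mul, add_zero] at perp
    have hu' : u ≠ τ := hu.resolve_right (by simp [e])
    have hz' : z = τ := by
      have := (mul_eq_zero.1 perp).resolve_left (sub_ne_zero.2 hu')
      linarith
    have := D.hg0 z (by linarith)
    exact hz.elim (fun h => h hz') (fun h => h this)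
  · rcases le_or_gt z D.t0 with hz0 | hz0
    · have e := D.hg0 z hz0
      rw [e, sub_self, mul_zero, add_zero] at perp
      have hz' : z ≠ τ := hz.resolve_right (by simp [e])
      have hu' : u = τ := by
        have := (mul_eq_zero.1 perp).resolve_right (sub_ne_zero.2 hz')
        linarith
      linarith
    · have := hA u z hu0.le hz0.le
      nlinarith [mul_pos (sub_pos.2 hu0) (sub_pos.2 hτ), mul_pos (sub_pos.2 hz0) (sub_pos.2 hτ),
        mul_pos (sub_pos.2 hτ) (sub_pos.2 hτ)]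

/-- No vertex of a rectangle lies on the right tail. -/
lemma no_right (hB : ∀ u z, u ≤ D.t1 → z ≤ D.t1 →
      0 ≤ (D.t1 - u) * (D.t1 - z) + (D.y1 - D.f u) * (D.y1 - D.g z))
    {τ s u z : ℝ} (hs : D.t1 < τ → s = D.y1)
    (perp : (u - τ) * (z - τ) + (D.f u - s) * (D.g z - s) = 0)
    (hu : u ≠ τ ∨ D.f u ≠ s) (hz : z ≠ τ ∨ D.g z ≠ s) : τ ≤ D.t1 := by
  by_contra hτ
  push Not at hτ
  have hs := hs hτ
  subst hs
  rcases le_or_gt D.t1 u with hu0 | hu0
  · have e := D.hf1 u hu0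
    rw [e, sub_self, zero_mul, add_zero] at perp
    have hu' : u ≠ τ := hu.resolve_right (by simp [e])
    have hz' : z = τ := by
      have := (mul_eq_zero.1 perp).resolve_left (sub_ne_zero.2 hu')
      linarith
    have := D.hg1 z (by linarith)
    exact hz.elim (fun h => h hz') (fun h => h this)
  · rcases le_or_gt D.t1 z with hz0 | hz0
    · have e := D.hg1 z hz0
      rw [e, sub_self, mul_zero, add_zero] at perp
      have hz' : z ≠ τ := hz.resolve_right (by simp [e])
      have hu' : u = τ := by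
        have := (mul_eq_zero.1 perp).resolve_right (sub_ne_zero.2 hz')
        linarith
      linarith
    · have := hB u z hu0.le hz0.le
      nlinarith [mul_pos (sub_pos.2 hu0) (sub_pos.2 hτ), mul_pos (sub_pos.2 hz0) (sub_pos.2 hτ),
        mul_pos (sub_pos.2 hτ) (sub_pos.2 hτ)]

/-- The rectangle has all its vertices over `[t0, t1]`. -/
theorem exists_rect_in {x0 : ℝ} (h : D.f x0 < D.g x0)
    (hA : ∀ u z, D.t0 ≤ u → D.t0 ≤ z →
      0 ≤ (u - D.t0) * (z - D.t0) + (D.f u - D.y0) * (D.g z - D.y0))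
    (hB : ∀ u z, u ≤ D.t1 → z ≤ D.t1 →
      0 ≤ (D.t1 - u) * (D.t1 - z) + (D.y1 - D.f u) * (D.y1 - D.g z)) :
    ∃ x a b : ℝ, a ≠ 0 ∧
    D.f (x + a) = D.f x + b ∧ D.g (x - D.r * b) = D.f x + D.r * a ∧
    D.g (x + a - D.r * b) = D.f x + b + D.r * a ∧
    x ∈ Icc D.t0 D.t1 ∧ x + a ∈ Icc D.t0 D.t1 ∧ x - D.r * b ∈ Icc D.t0 D.t1 ∧
    x + a - D.r * b ∈ Icc D.t0 D.t1 := by
  obtain ⟨x, a, b, ha, h1, h2, h3⟩ := D.exists_rect h
  have hra : D.r * a ≠ 0 := mul_ne_zero D.hr.ne' ha
  refine ⟨x, a, b, ha, h1, h2, h3, ?_, ?_, ?_, ?_⟩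
  · have perp : (x + a - x) * (x - D.r * b - x)
        + (D.f (x + a) - D.f x) * (D.g (x - D.r * b) - D.f x) = 0 := by
      rw [h1, h2]; ring
    have hu : x + a ≠ x ∨ D.f (x + a) ≠ D.f x := Or.inl (by intro h; apply ha; linarith)
    have hz : x - D.r * b ≠ x ∨ D.g (x - D.r * b) ≠ D.f x :=
      Or.inr (by rw [h2]; intro h; apply hra; linarith)
    exact ⟨D.no_left hA (fun h => D.hf0 x h.le) perp hu hz,
      D.no_right hB (fun h => D.hf1 x h.le) perp hu hz⟩
  · have perp : (x - (x + a)) * (x + a - D.r * b - (x + a))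
        + (D.f x - D.f (x + a)) * (D.g (x + a - D.r * b) - D.f (x + a)) = 0 := by
      rw [h1, h3]; ring
    have hu : x ≠ x + a ∨ D.f x ≠ D.f (x + a) := Or.inl (by intro h; apply ha; linarith)
    have hz : x + a - D.r * b ≠ x + a ∨ D.g (x + a - D.r * b) ≠ D.f (x + a) :=
      Or.inr (by rw [h1, h3]; intro h; apply hra; linarith)
    exact ⟨D.no_left hA (fun h => D.hf0 _ h.le) perp hu hz,
      D.no_right hB (fun h => D.hf1 _ h.le) perp hu hz⟩
  · have perp : (x - (x - D.r * b)) * (x + a - D.r * b - (x - D.r * b))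
        + (D.f x - D.g (x - D.r * b)) * (D.g (x + a - D.r * b) - D.g (x - D.r * b)) = 0 := by
      rw [h2, h3]; ring
    have hu : x ≠ x - D.r * b ∨ D.f x ≠ D.g (x - D.r * b) :=
      Or.inr (by rw [h2]; intro h; apply hra; linarith)
    have hz : x + a - D.r * b ≠ x - D.r * b ∨ D.g (x + a - D.r * b) ≠ D.g (x - D.r * b) :=
      Or.inl (by intro h; apply ha; linarith)
    exact ⟨D.no_left hA (fun h => D.hg0 _ h.le) perp hu hz,
      D.no_right hB (fun h => D.hg1 _ h.le) perp hu hz⟩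
  · have perp : (x + a - (x + a - D.r * b)) * (x - D.r * b - (x + a - D.r * b))
        + (D.f (x + a) - D.g (x + a - D.r * b)) *
          (D.g (x - D.r * b) - D.g (x + a - D.r * b)) = 0 := by
      rw [h1, h2, h3]; ring
    have hu : x + a ≠ x + a - D.r * b ∨ D.f (x + a) ≠ D.g (x + a - D.r * b) :=
      Or.inr (by rw [h1, h3]; intro h; apply hra; linarith)
    have hz : x - D.r * b ≠ x + a - D.r * b ∨ D.g (x - D.r * b) ≠ D.g (x + a - D.r * b) :=
      Or.inl (by intro h; apply ha; linarith)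
    exact ⟨D.no_left hA (fun h => D.hg0 _ h.le) perp hu hz,
      D.no_right hB (fun h => D.hg1 _ h.le) perp hu hz⟩

end Dat

/-- Core statement: the lower function is `f`. -/
theorem core {t0 t1 : ℝ} (h01 : t0 < t1) {f g : ℝ → ℝ} (hf : ContinuousOn f (Icc t0 t1))
    (hg : ContinuousOn g (Icc t0 t1)) (h0 : f t0 = g t0) (h1 : f t1 = g t1)
    {x0 : ℝ} (hx0 : x0 ∈ Icc t0 t1) (hfg : f x0 < g x0)
    (hA : ∀ x ∈ Icc t0 t1, ∀ x' ∈ Icc t0 t1,
      0 ≤ (x - t0) * (x' - t0) + (f x - f t0) * (g x' - g t0))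
    (hB : ∀ x ∈ Icc t0 t1, ∀ x' ∈ Icc t0 t1,
      0 ≤ (t1 - x) * (t1 - x') + (f t1 - f x) * (g t1 - g x'))
    {r : ℝ} (hr : 0 < r) :
    ∃ x a b : ℝ, a ≠ 0 ∧ f (x + a) = f x + b ∧ g (x - r * b) = f x + r * a ∧
      g (x + a - r * b) = f x + b + r * a ∧ x ∈ Icc t0 t1 ∧ x + a ∈ Icc t0 t1 ∧
      x - r * b ∈ Icc t0 t1 ∧ x + a - r * b ∈ Icc t0 t1 := by
  set fe : ℝ → ℝ := IccExtend h01.le ((Icc t0 t1).domRestrict f) with hfe
  set ge : ℝ → ℝ := IccExtend h01.le ((Icc t0 t1).domRestrict g) with hge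
  have ucf : UniformContinuous fe :=
    (CompactSpace.uniformContinuous_of_continuous hf.domRestrict).comp
      (LipschitzWith.projIcc h01.le).uniformContinuous
  have ucg : UniformContinuous ge :=
    (CompactSpace.uniformContinuous_of_continuous hg.domRestrict).comp
      (LipschitzWith.projIcc h01.le).uniformContinuous
  have fein : ∀ x ∈ Icc t0 t1, fe x = f x := fun x hx => IccExtend_of_mem _ _ hx
  have gein : ∀ x ∈ Icc t0 t1, ge x = g x := fun x hx => IccExtend_of_mem _ _ hx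
  have fe0 : ∀ x, x ≤ t0 → fe x = f t0 := fun x hx => by
    rw [hfe, IccExtend_of_le_left _ _ hx]; rfl
  have ge0 : ∀ x, x ≤ t0 → ge x = f t0 := fun x hx => by
    rw [hge, IccExtend_of_le_left _ _ hx, h0]; rfl
  have fe1 : ∀ x, t1 ≤ x → fe x = f t1 := fun x hx => by
    rw [hfe, IccExtend_of_right_le _ _ hx]; rfl
  have ge1 : ∀ x, t1 ≤ x → ge x = f t1 := fun x hx => by
    rw [hge, IccExtend_of_right_le _ _ hx, h1]; rfl
  obtain ⟨Bf, hBf⟩ := isCompact_Icc.exists_bound_of_continuousOn hf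
  obtain ⟨Bg, hBg⟩ := isCompact_Icc.exists_bound_of_continuousOn hg
  have hfB : ∀ x, |fe x| ≤ max Bf Bg := fun x =>
    (hBf _ (projIcc t0 t1 h01.le x).2).trans (le_max_left _ _)
  have hgB : ∀ x, |ge x| ≤ max Bf Bg := fun x =>
    (hBg _ (projIcc t0 t1 h01.le x).2).trans (le_max_right _ _)
  set F : ℝ → ℝ := fun x => ∫ t in t0..x, fe t with hF
  set G : ℝ → ℝ := fun x => ∫ t in t0..x, ge t with hG
  have dF : ∀ x, HasDerivAt F (fe x) x := fun x =>
    (ucf.continuous.integral_hasStrictDerivAt t0 x).hasDerivAt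
  have dG : ∀ x, HasDerivAt G (ge x) x := fun x =>
    (ucg.continuous.integral_hasStrictDerivAt t0 x).hasDerivAt
  have dH : ∀ x, HasDerivAt (fun x => G x - F x) (ge x - fe x) x := fun x => (dG x).sub (dF x)
  have cH : Continuous fun x => G x - F x :=
    continuous_iff_continuousAt.2 fun x => (dH x).continuousAt
  obtain ⟨C, hC⟩ := (isCompact_Icc (a := t0) (b := t1)).exists_bound_of_continuousOn
    cH.continuousOn
  have hC' : ∀ x, |G x - F x| ≤ C := by
    intro x
    rcases le_total x t0 with hx | hx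
    · have := Dat.diff_of_const dH ordConnected_Iic (y := 0) (s := Iic t0)
        (fun u hu => by rw [fe0 u hu, ge0 u hu, sub_self]) (x := x) (x' := t0) hx (mem_Iic.2 le_rfl)
      have h2 : G x - F x = G t0 - F t0 := by linarith
      rw [h2]
      exact hC t0 ⟨le_rfl, h01.le⟩
    · rcases le_total x t1 with hx' | hx'
      · exact hC x ⟨hx, hx'⟩
      · have := Dat.diff_of_const dH ordConnected_Ici (y := 0) (s := Ici t1)
          (fun u hu => by rw [fe1 u hu, ge1 u hu, sub_self]) (x := t1) (x' := x)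
          (mem_Ici.2 le_rfl) hx'
        have h2 : G x - F x = G t1 - F t1 := by linarith
        rw [h2]
        exact hC t1 ⟨h01.le, le_rfl⟩
  let D : Dat :=
    { f := fe, g := ge, F := F, G := G, r := r, t0 := t0, t1 := t1, y0 := f t0, y1 := f t1
      B := max Bf Bg, M := 2 * C, hr := hr, h01 := h01, hF := dF, hG := dG, hf := ucf, hg := ucg
      hfB := hfB, hgB := hgB
      hM := fun x y => by
        have h2 := abs_le.1 (hC' x)
        have h3 := abs_le.1 (hC' y)
        linarith [h2.1, h3.2]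
      hf0 := fe0, hg0 := ge0, hf1 := fe1, hg1 := ge1 }
  have hDA : ∀ u z, D.t0 ≤ u → D.t0 ≤ z →
      0 ≤ (u - D.t0) * (z - D.t0) + (D.f u - D.y0) * (D.g z - D.y0) := by
    intro u z hu hz
    have hu' : t0 ≤ u := hu
    have hz' : t0 ≤ z := hz
    set u' := min u t1 with hu1
    set z' := min z t1 with hz1
    have mu : u' ∈ Icc t0 t1 := ⟨le_min hu' h01.le, min_le_right _ _⟩
    have mz : z' ∈ Icc t0 t1 := ⟨le_min hz' h01.le, min_le_right _ _⟩
    have fu : fe u = f u' := by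
      rcases le_total u t1 with h | h
      · rw [hu1, min_eq_left h]; exact fein u ⟨hu', h⟩
      · rw [hu1, min_eq_right h]; exact fe1 u h
    have gz : ge z = g z' := by
      rcases le_total z t1 with h | h
      · rw [hz1, min_eq_left h]; exact gein z ⟨hz', h⟩
      · rw [hz1, min_eq_right h, ← h1]; exact ge1 z h
    have key := hA u' mu z' mz
    change 0 ≤ (u - t0) * (z - t0) + (fe u - f t0) * (ge z - f t0)
    rw [fu, gz]
    have e : g z' - f t0 = g z' - g t0 := by rw [h0]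
    rw [e]
    have a1 : u' - t0 ≤ u - t0 := by linarith [min_le_left u t1]
    have a2 : z' - t0 ≤ z - t0 := by linarith [min_le_left z t1]
    have := mul_le_mul a1 a2 (by linarith [mz.1]) (by linarith)
    linarith
  have hDB : ∀ u z, u ≤ D.t1 → z ≤ D.t1 →
      0 ≤ (D.t1 - u) * (D.t1 - z) + (D.y1 - D.f u) * (D.y1 - D.g z) := by
    intro u z hu hz
    have hu' : u ≤ t1 := hu
    have hz' : z ≤ t1 := hz
    set u' := max u t0 with hu1
    set z' := max z t0 with hz1
    have mu : u' ∈ Icc t0 t1 := ⟨le_max_right _ _, max_le hu' h01.le⟩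
    have mz : z' ∈ Icc t0 t1 := ⟨le_max_right _ _, max_le hz' h01.le⟩
    have fu : fe u = f u' := by
      rcases le_total t0 u with h | h
      · rw [hu1, max_eq_left h]; exact fein u ⟨h, hu'⟩
      · rw [hu1, max_eq_right h]; exact fe0 u h
    have gz : ge z = g z' := by
      rcases le_total t0 z with h | h
      · rw [hz1, max_eq_left h]; exact gein z ⟨h, hz'⟩
      · rw [hz1, max_eq_right h, ← h0]; exact ge0 z h
    have key := hB u' mu z' mz
    change 0 ≤ (t1 - u) * (t1 - z) + (f t1 - fe u) * (f t1 - ge z)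
    rw [fu, gz]
    have e : f t1 - g z' = g t1 - g z' := by rw [h1]
    rw [e]
    have a1 : t1 - u' ≤ t1 - u := by linarith [le_max_left u t0]
    have a2 : t1 - z' ≤ t1 - z := by linarith [le_max_left z t0]
    have := mul_le_mul a1 a2 (by linarith [mz.2]) (by linarith)
    linarith
  have hx : D.f x0 < D.g x0 := by
    change fe x0 < ge x0
    rw [fein x0 hx0, gein x0 hx0]
    exact hfg
  obtain ⟨x, a, b, ha, r1, r2, r3, m1, m2, m3, m4⟩ := D.exists_rect_in hx hDA hDB
  change fe (x + a) = fe x + b at r1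
  change ge (x - r * b) = fe x + r * a at r2
  change ge (x + a - r * b) = fe x + b + r * a at r3
  change x ∈ Icc t0 t1 at m1
  change x + a ∈ Icc t0 t1 at m2
  change x - r * b ∈ Icc t0 t1 at m3
  change x + a - r * b ∈ Icc t0 t1 at m4
  rw [fein _ m1] at r1 r2 r3
  rw [fein _ m2] at r1
  rw [gein _ m3] at r2
  rw [gein _ m4] at r3
  exact ⟨x, a, b, ha, r1, r2, r3, m1, m2, m3, m4⟩

end Pool.MP_7ec17a_gt.V
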