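import Pool.Agent.Work.MP_7ec17a_gt_V.Dat

/-!
# The mountain pass
-/

set_option autoImplicit false

open Set

namespace Pool.MP_7ec17a_gt.V

namespace Dat

variable (D : Dat)

lemma uce : UniformContinuous D.e1 ∧ UniformContinuous D.e2 ∧ UniformContinuous D.e3 := by
  have u1 : UniformContinuous (fun z : ℝ × ℝ × ℝ => z.1) := uniformContinuous_fst
  have u2 : UniformContinuous (fun z : ℝ × ℝ × ℝ => z.2.1) :=
    uniformContinuous_fst.comp uniformContinuous_snd
  have u3 : UniformContinuous (fun z : ℝ × ℝ × ℝ => z.2.2) :=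
    uniformContinuous_snd.comp uniformContinuous_snd
  have u3' : UniformContinuous (fun z : ℝ × ℝ × ℝ => D.r * z.2.2) := u3.const_smul D.r
  have u2' : UniformContinuous (fun z : ℝ × ℝ × ℝ => D.r * z.2.1) := u2.const_smul D.r
  have f1 := D.hf.comp u1
  have f2 := D.hf.comp (u1.add u2)
  have g1 := D.hg.comp (u1.sub u3')
  have g2 := D.hg.comp ((u1.add u2).sub u3')
  refine ⟨((f1.sub f2).sub g1).add g2, (f2.neg.add g2).sub u2', ?_⟩
  exact ((g1.sub g2).add u3).const_smul D.r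

/-- Uniform modulus of continuity of the gradient. -/
lemma modulus {ω : ℝ} (hω : 0 < ω) : ∃ τ : ℝ, 0 < τ ∧ ∀ z z' : ℝ × ℝ × ℝ, ‖z' - z‖ ≤ τ →
    |D.e1 z' - D.e1 z| ≤ ω ∧ |D.e2 z' - D.e2 z| ≤ ω ∧ |D.e3 z' - D.e3 z| ≤ ω := by
  obtain ⟨u1, u2, u3⟩ := D.uce
  obtain ⟨d1, hd1, h1⟩ := Metric.uniformContinuous_iff.1 u1 ω hω
  obtain ⟨d2, hd2, h2⟩ := Metric.uniformContinuous_iff.1 u2 ω hω
  obtain ⟨d3, hd3, h3⟩ := Metric.uniformContinuous_iff.1 u3 ω hω
  refine ⟨min d1 (min d2 d3) / 2, by positivity, fun z z' hz => ?_⟩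
  have hm : min d1 (min d2 d3) / 2 < min d1 (min d2 d3) := half_lt_self (by positivity)
  have hz' : dist z' z < min d1 (min d2 d3) := by
    rw [dist_eq_norm]; exact lt_of_le_of_lt hz hm
  refine ⟨?_, ?_, ?_⟩
  · have := h1 (lt_of_lt_of_le hz' (min_le_left _ _))
    rw [Real.dist_eq] at this
    exact this.le
  · have := h2 (lt_of_lt_of_le hz' ((min_le_right _ _).trans (min_le_left _ _)))
    rw [Real.dist_eq] at this
    exact this.le
  · have := h3 (lt_of_lt_of_le hz' ((min_le_right _ _).trans (min_le_right _ _)))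
    rw [Real.dist_eq] at this
    exact this.le

/-- One gradient step increases `E`. -/
lemma push (z : ℝ × ℝ × ℝ) {ω τ h : ℝ}
    (hmod : ∀ z z' : ℝ × ℝ × ℝ, ‖z' - z‖ ≤ τ →
      |D.e1 z' - D.e1 z| ≤ ω ∧ |D.e2 z' - D.e2 z| ≤ ω ∧ |D.e3 z' - D.e3 z| ≤ ω)
    (hh : 0 ≤ h) (hhS : h * D.S z ≤ τ) :
    D.E z + h * (D.S z * (D.S z / 3 - ω)) ≤ D.E (z + h • (D.e1 z, D.e2 z, D.e3 z)) := by
  set p := D.e1 z with hp
  set q := D.e2 z with hq
  set s := D.e3 z with hs
  have hS : D.S z = |p| + |q| + |s| := rfl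
  set w : ℝ × ℝ × ℝ := h • (p, q, s) with hw
  obtain ⟨c, hc, hc'⟩ := exists_hasDerivAt_eq_slope (fun t => D.E (z + t • w))
    (fun t => D.e1 (z + t • w) * w.1 + D.e2 (z + t • w) * w.2.1 + D.e3 (z + t • w) * w.2.2)
    (zero_lt_one' ℝ)
    (fun x _ => (D.hasDerivAt_line z w x).continuousAt.continuousWithinAt)
    (fun x _ => D.hasDerivAt_line z w x)
  simp only [one_smul, zero_smul, add_zero, sub_zero, div_one] at hc'
  have hpn : |p| ≤ D.S z := by rw [hS]; linarith [abs_nonneg q, abs_nonneg s]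
  have hqn : |q| ≤ D.S z := by rw [hS]; linarith [abs_nonneg p, abs_nonneg s]
  have hsn : |s| ≤ D.S z := by rw [hS]; linarith [abs_nonneg p, abs_nonneg q]
  have hnorm : ‖z + c • w - z‖ ≤ τ := by
    rw [add_sub_cancel_left, norm_smul, hw, norm_smul, Real.norm_eq_abs, Real.norm_eq_abs,
      abs_of_pos hc.1, abs_of_nonneg hh]
    have h1 : ‖(p, q, s)‖ ≤ D.S z := by
      rw [Prod.norm_mk, Prod.norm_mk]
      simp only [Real.norm_eq_abs]
      exact max_le hpn (max_le hqn hsn)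
    have h2 : h * ‖(p, q, s)‖ ≤ τ := (mul_le_mul_of_nonneg_left h1 hh).trans hhS
    have h3 : 0 ≤ h * ‖(p, q, s)‖ := mul_nonneg hh (norm_nonneg _)
    nlinarith [hc.2, hc.1]
  obtain ⟨m1, m2, m3⟩ := hmod z (z + c • w) hnorm
  have key : ∀ u v : ℝ, |u - v| ≤ ω → v ^ 2 - ω * |v| ≤ u * v := by
    intro u v huv
    have h1 : |(u - v) * v| ≤ ω * |v| := by
      rw [abs_mul]; exact mul_le_mul_of_nonneg_right huv (abs_nonneg _)
    have h2 := (abs_le.1 h1).1
    nlinarith
  have k1 := key _ _ m1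
  have k2 := key _ _ m2
  have k3 := key _ _ m3
  have w1 : w.1 = h * p := rfl
  have w2 : w.2.1 = h * q := rfl
  have w3 : w.2.2 = h * s := rfl
  rw [w1, w2, w3] at hc'
  have hsum : h * ((p ^ 2 - ω * |p|) + (q ^ 2 - ω * |q|) + (s ^ 2 - ω * |s|))
      ≤ D.E (z + w) - D.E z := by
    rw [← hc']
    have := mul_le_mul_of_nonneg_left (add_le_add (add_le_add k1 k2) k3) hh
    refine this.trans (le_of_eq ?_)
    ring
  have hquad : D.S z * (D.S z / 3 - ω)
      ≤ (p ^ 2 - ω * |p|) + (q ^ 2 - ω * |q|) + (s ^ 2 - ω * |s|) := by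
    rw [hS]
    have a1 := sq_abs p
    have a2 := sq_abs q
    have a3 := sq_abs s
    nlinarith [sq_nonneg (|p| - |q|), sq_nonneg (|q| - |s|), sq_nonneg (|p| - |s|)]
  have := mul_le_mul_of_nonneg_left hquad hh
  linarith

/-- Deformation lemma (one step). -/
lemma deform {c κ ε : ℝ} (hκ : 0 < κ) (hε : 0 < ε)
    (hgrad : ∀ z, |D.E z - c| ≤ ε → κ ≤ D.S z) :
    ∃ δ : ℝ, 0 < δ ∧ ∃ T : ℝ × ℝ × ℝ → ℝ × ℝ × ℝ, Continuous T ∧
      (∀ z, c + ε ≤ D.E z → T z = z) ∧ ∀ z, c - δ ≤ D.E z → c + δ ≤ D.E (T z) := by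
  obtain ⟨τ, hτ, hmod⟩ := D.modulus (ω := κ / 6) (by positivity)
  set m : ℝ := κ / 6 * (κ / (1 + κ)) with hm
  have hmpos : 0 < m := by positivity
  set φ : ℝ × ℝ × ℝ → ℝ := fun z => max 0 (min 1 ((c + ε - D.E z) / (ε / 2))) with hφ
  have hφc : Continuous φ := by
    have := D.contE
    simp only [hφ]
    fun_prop
  have hφ0 : ∀ z, 0 ≤ φ z := fun z => le_max_left _ _
  have hφ1 : ∀ z, φ z ≤ 1 := fun z => max_le zero_le_one (min_le_left _ _)
  set T : ℝ × ℝ × ℝ → ℝ × ℝ × ℝ := fun z =>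
    z + (τ * φ z / (1 + D.S z)) • (D.e1 z, D.e2 z, D.e3 z) with hT
  have hSpos : ∀ z, 0 < 1 + D.S z := fun z => by linarith [D.S_nonneg z]
  refine ⟨min (ε / 2) (τ * m / 2), by positivity, T, ?_, ?_, ?_⟩
  · have h1 := D.conte1
    have h2 := D.conte2
    have h3 := D.conte3
    have h4 := D.contS
    have h5 : Continuous fun z => τ * φ z / (1 + D.S z) :=
      Continuous.div (by fun_prop) (by fun_prop) fun z => (hSpos z).ne'
    simp only [hT]
    fun_prop
  · intro z hz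
    have : φ z = 0 := by
      simp only [hφ]
      refine max_eq_left ((min_le_right _ _).trans ?_)
      exact div_nonpos_of_nonpos_of_nonneg (by linarith) (by positivity)
    simp [hT, this]
  · intro z hz
    rcases le_total (c + ε) (D.E z) with h | h
    · have hz0 : φ z = 0 := by
        simp only [hφ]
        refine max_eq_left ((min_le_right _ _).trans ?_)
        exact div_nonpos_of_nonpos_of_nonneg (by linarith) (by positivity)
      have hTz : T z = z := by simp [hT, hz0]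
      rw [hTz]
      have := min_le_left (ε / 2) (τ * m / 2)
      linarith
    · have hδ1 := min_le_left (ε / 2) (τ * m / 2)
      have hδ2 := min_le_right (ε / 2) (τ * m / 2)
      have hS : κ ≤ D.S z := hgrad z (abs_le.2 ⟨by linarith, by linarith⟩)
      have hSp : 0 < D.S z := lt_of_lt_of_le hκ hS
      have hh : 0 ≤ τ * φ z / (1 + D.S z) := by
        have := hφ0 z
        have := (hSpos z).le
        positivity
      have hhS : τ * φ z / (1 + D.S z) * D.S z ≤ τ := by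
        rw [div_mul_eq_mul_div, div_le_iff₀ (hSpos z)]
        have h1 : τ * φ z ≤ τ := by nlinarith [hφ1 z]
        nlinarith [hφ0 z]
      have hpush := D.push z hmod hh hhS
      have hfac : κ / 6 ≤ D.S z / 3 - κ / 6 := by linarith
      have hstep : D.E z + τ * φ z / (1 + D.S z) * (D.S z * (κ / 6)) ≤ D.E (T z) := by
        refine le_trans ?_ hpush
        have h1 : D.S z * (κ / 6) ≤ D.S z * (D.S z / 3 - κ / 6) :=
          mul_le_mul_of_nonneg_left hfac hSp.le
        have := mul_le_mul_of_nonneg_left h1 hh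
        linarith
      rcases le_total (c + ε / 2) (D.E z) with h' | h'
      · have : 0 ≤ τ * φ z / (1 + D.S z) * (D.S z * (κ / 6)) := by positivity
        linarith
      · have hφz : φ z = 1 := by
          simp only [hφ]
          have : 1 ≤ (c + ε - D.E z) / (ε / 2) := by
            rw [le_div_iff₀ (by positivity)]; linarith
          rw [min_eq_left this]
          exact max_eq_right zero_le_one
        rw [hφz, mul_one] at hstep
        have hq : κ / (1 + κ) ≤ D.S z / (1 + D.S z) := by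
          rw [div_le_div_iff₀ (by positivity) (hSpos z)]
          nlinarith
        have hstep2 : τ * m ≤ τ / (1 + D.S z) * (D.S z * (κ / 6)) := by
          have e : τ / (1 + D.S z) * (D.S z * (κ / 6)) =
              τ * (κ / 6 * (D.S z / (1 + D.S z))) := by ring
          rw [e, hm]
          have := mul_le_mul_of_nonneg_left hq (by positivity : 0 ≤ κ / 6)
          exact mul_le_mul_of_nonneg_left this hτ.le
        linarith

lemma B_nonneg : 0 ≤ D.B := (abs_nonneg _).trans (D.hfB 0)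

/-- Palais-Smale at positive levels. -/
lemma grad_bound {c : ℝ} (hc : 0 < c) (hno : ∀ z, D.E z = c → D.S z ≠ 0) :
    ∃ κ : ℝ, 0 < κ ∧ ∃ ε : ℝ, 0 < ε ∧ ε ≤ 1 ∧ ∀ z, |D.E z - c| ≤ ε → κ ≤ D.S z := by
  have hB := D.B_nonneg
  have hr := D.hr
  set A0 : ℝ := (2 * D.B + 1) / D.r with hA0
  set B1 : ℝ := (1 + 2 * D.r * D.B) / D.r with hB1
  set R : ℝ := |D.t0| + |D.t1| + A0 + D.r * B1 with hR
  have hA0p : 0 ≤ A0 := by positivity
  have hB1p : 0 ≤ B1 := by positivity
  have hRp : 0 ≤ R := by positivity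
  set Kc : Set (ℝ × ℝ × ℝ) := Icc (-R) R ×ˢ (Icc (-A0) A0 ×ˢ Icc (-B1) B1) with hKc
  have hKcomp : IsCompact Kc := isCompact_Icc.prod (isCompact_Icc.prod isCompact_Icc)
  have hKne : Kc.Nonempty := ⟨(0, 0, 0), ⟨by simpa using hRp, ⟨by simpa using hA0p,
    by simpa using hB1p⟩⟩⟩
  have hcont : Continuous fun z => |D.E z - c| + D.S z := by
    have h1 := D.contE
    have h2 := D.contS
    fun_prop
  obtain ⟨z0, hz0, hmin⟩ := hKcomp.exists_isMinOn hKne hcont.continuousOn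
  set μ : ℝ := |D.E z0 - c| + D.S z0 with hμ
  have hμp : 0 < μ := by
    rcases (abs_nonneg (D.E z0 - c)).lt_or_eq with h | h
    · have := D.S_nonneg z0; linarith
    · have h0 : D.E z0 = c := by
        have := abs_eq_zero.1 h.symm; linarith
      have h1 := lt_of_le_of_ne (D.S_nonneg z0) (hno z0 h0).symm
      linarith
  have hμle : ∀ z ∈ Kc, μ ≤ |D.E z - c| + D.S z := fun z hz => hmin hz
  set κ : ℝ := min 1 (min (μ / 2) (c * D.r / 2)) with hκ
  set ε : ℝ := min 1 (min (μ / 4) (c / 4)) with hε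
  have hκp : 0 < κ := by positivity
  have hεp : 0 < ε := by positivity
  refine ⟨κ, hκp, ε, hεp, min_le_left _ _, fun z hz => ?_⟩
  by_contra hlt
  have hlt : D.S z < κ := not_le.1 hlt
  have k1 : κ ≤ 1 := min_le_left _ _
  have k2 : κ ≤ μ / 2 := (min_le_right _ _).trans (min_le_left _ _)
  have k3 : κ ≤ c * D.r / 2 := (min_le_right _ _).trans (min_le_right _ _)
  have q2 : ε ≤ μ / 4 := (min_le_right _ _).trans (min_le_left _ _)
  have q3 : ε ≤ c / 4 := (min_le_right _ _).trans (min_le_right _ _)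
  obtain ⟨x, a, b⟩ := z
  have n1 : |D.e1 (x, a, b)| ≤ D.S (x, a, b) := by
    unfold S; linarith [abs_nonneg (D.e2 (x, a, b)), abs_nonneg (D.e3 (x, a, b))]
  have n2 : |D.e2 (x, a, b)| ≤ D.S (x, a, b) := by
    unfold S; linarith [abs_nonneg (D.e1 (x, a, b)), abs_nonneg (D.e3 (x, a, b))]
  have n3 : |D.e3 (x, a, b)| ≤ D.S (x, a, b) := by
    unfold S; linarith [abs_nonneg (D.e1 (x, a, b)), abs_nonneg (D.e2 (x, a, b))]
  have m2 := abs_le.1 (n2.trans hlt.le)
  have m3 := abs_le.1 (n3.trans hlt.le)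
  simp only [e2, e3] at m2 m3
  have f2 := abs_le.1 (D.hfB (x + a))
  have g1 := abs_le.1 (D.hgB (x - D.r * b))
  have g2 := abs_le.1 (D.hgB (x + a - D.r * b))
  have ha : |a| ≤ A0 := by
    rw [abs_le, hA0]
    constructor
    · rw [neg_le, ← sub_nonneg, ← mul_nonneg_iff_of_pos_left hr, mul_sub, mul_div_cancel₀ _ hr.ne']
      nlinarith
    · rw [le_div_iff₀ hr]
      nlinarith
  have hb : |b| ≤ B1 := by
    have hg1 := mul_le_mul_of_nonneg_left g1.2 hr.le
    have hg1' := mul_le_mul_of_nonneg_left g1.1 hr.le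
    have hg2 := mul_le_mul_of_nonneg_left g2.2 hr.le
    have hg2' := mul_le_mul_of_nonneg_left g2.1 hr.le
    rw [abs_le, hB1]
    constructor
    · rw [neg_le, ← sub_nonneg, ← mul_nonneg_iff_of_pos_left hr, mul_sub, mul_div_cancel₀ _ hr.ne']
      nlinarith
    · rw [le_div_iff₀ hr]
      nlinarith
  have ha' := abs_le.1 ha
  have hb' := abs_le.1 hb
  have hrb := mul_le_mul_of_nonneg_left hb'.1 hr.le
  have hrb' := mul_le_mul_of_nonneg_left hb'.2 hr.le
  have tail : ∀ y : ℝ, ∀ s : Set ℝ, s.OrdConnected → (∀ u ∈ s, D.f u = y) → (∀ u ∈ s, D.g u = y) →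
      x ∈ s → x + a ∈ s → x - D.r * b ∈ s → x + a - D.r * b ∈ s → False := by
    intro y s hs hfs hgs h1 h2 h3 h4
    have d1 := diff_of_const D.hF hs hfs h1 h2
    have d2 := diff_of_const D.hG hs hgs h3 h4
    have hE : D.E (x, a, b) = D.r * (b ^ 2 - a ^ 2) / 2 := by
      simp only [E]
      linarith
    rw [hgs _ h3, hgs _ h4] at m3
    have hrb1 : |D.r * b| ≤ κ := abs_le.2 ⟨by linarith [m3.1], by linarith [m3.2]⟩
    have hsq : (D.r * b) ^ 2 ≤ κ ^ 2 := by
      rw [← sq_abs (D.r * b)]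
      exact pow_le_pow_left₀ (abs_nonneg _) hrb1 2
    have hsq2 : κ ^ 2 ≤ c * D.r / 2 := by nlinarith
    have hb2 : D.r * b ^ 2 ≤ c / 2 := by
      have : D.r * (D.r * b ^ 2) ≤ D.r * (c / 2) := by nlinarith
      exact le_of_mul_le_mul_left this hr
    have hEle : D.E (x, a, b) ≤ c / 4 := by
      rw [hE]
      nlinarith [mul_nonneg hr.le (sq_nonneg a)]
    have := (abs_le.1 hz).1
    linarith
  rcases le_or_gt |x| R with hx | hx
  · have hmem : ((x, a, b) : ℝ × ℝ × ℝ) ∈ Kc := ⟨abs_le.1 hx, abs_le.1 ha, abs_le.1 hb⟩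
    have := hμle _ hmem
    linarith
  · have t0a := neg_abs_le D.t0
    have t1a := le_abs_self D.t1
    have t0b := abs_nonneg D.t0
    have t1b := abs_nonneg D.t1
    rcases lt_or_gt_of_ne (abs_pos.1 (hRp.trans_lt hx)) with h | h
    · rw [abs_of_neg h] at hx
      refine tail D.y0 (Iic D.t0) ordConnected_Iic D.hf0 D.hg0 ?_ ?_ ?_ ?_ <;>
      · rw [mem_Iic]; linarith
    · rw [abs_of_pos h] at hx
      refine tail D.y1 (Ici D.t1) ordConnected_Ici D.hf1 D.hg1 ?_ ?_ ?_ ?_ <;>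
      · rw [mem_Ici]; linarith

/-- The straight path. -/
lemma start {x0 : ℝ} (h : D.f x0 < D.g x0) (K : ℝ) : ∃ ε T c1 : ℝ, 0 < T ∧ 0 < c1 ∧
    (∀ b, c1 ≤ D.E (x0, ε, b)) ∧ K ≤ D.E (x0, ε, T) ∧ K ≤ D.E (x0, ε, -T) := by
  have hB := D.B_nonneg
  have hr := D.hr
  set h0 : ℝ := D.g x0 - D.f x0 with hh0
  have hh : 0 < h0 := sub_pos.2 h
  obtain ⟨d1, hd1, H1⟩ := Metric.uniformContinuous_iff.1 D.hf (h0 / 4) (by positivity)
  obtain ⟨d2, hd2, H2⟩ := Metric.uniformContinuous_iff.1 D.hg (h0 / 4) (by positivity)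
  set δ : ℝ := min d1 d2 with hδ
  have hδp : 0 < δ := by positivity
  set b0 : ℝ := δ / (2 * D.r) with hb0
  have hb0p : 0 < b0 := by positivity
  set ε : ℝ := min (δ / 4) (min (h0 / (2 * D.r)) (min 1 (D.r * b0 ^ 2 / (4 * (D.r / 2 + 2 * D.B)))))
    with hε
  have hεp : 0 < ε := by positivity
  have e1 : ε ≤ δ / 4 := min_le_left _ _
  have e2 : ε ≤ h0 / (2 * D.r) := (min_le_right _ _).trans (min_le_left _ _)
  have e3 : ε ≤ 1 := (min_le_right _ _).trans ((min_le_right _ _).trans (min_le_left _ _))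
  have e4 : ε ≤ D.r * b0 ^ 2 / (4 * (D.r / 2 + 2 * D.B)) :=
    (min_le_right _ _).trans ((min_le_right _ _).trans (min_le_right _ _))
  have e2' : D.r * ε ≤ h0 / 2 := by
    rw [le_div_iff₀ (by positivity)] at e2; linarith
  have e4' : ε * (D.r / 2 + 2 * D.B) ≤ D.r * b0 ^ 2 / 4 := by
    rw [le_div_iff₀ (by positivity)] at e4; linarith
  have hlow : ∀ b, D.r * b ^ 2 / 2 - D.r * b0 ^ 2 / 4 ≤ D.E (x0, ε, b) := by
    intro b
    have := D.E_lower x0 ε b
    rw [abs_of_pos hεp] at this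
    have h2 : D.r * ε ^ 2 / 2 ≤ ε * (D.r / 2) := by nlinarith [mul_pos hr hεp]
    nlinarith
  refine ⟨ε, b0 + (|K| + 1) / D.r + 1, min (ε * h0 / 4) (D.r * b0 ^ 2 / 4), by positivity,
    by positivity, ?_, ?_, ?_⟩
  · intro b
    rcases le_total |b| b0 with hb | hb
    · refine (min_le_left _ _).trans ?_
      have hrb : |D.r * b| ≤ δ / 2 := by
        rw [abs_mul, abs_of_pos hr]
        have := mul_le_mul_of_nonneg_left hb hr.le
        have e : D.r * b0 = δ / 2 := by rw [hb0]; field_simp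
        linarith
      have hrb' := abs_le.1 hrb
      obtain ⟨u, hu, hu'⟩ := exists_hasDerivAt_eq_slope D.F D.f (show x0 < x0 + ε by linarith)
        (fun x _ => (D.hF x).continuousAt.continuousWithinAt) (fun x _ => D.hF x)
      obtain ⟨v, hv, hv'⟩ := exists_hasDerivAt_eq_slope D.G D.g
        (show x0 - D.r * b < x0 + ε - D.r * b by linarith)
        (fun x _ => (D.hG x).continuousAt.continuousWithinAt) (fun x _ => D.hG x)
      rw [eq_div_iff (by linarith)] at hu' hv'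
      have fu : D.f u ≤ D.f x0 + h0 / 4 := by
        have : dist u x0 < d1 := by
          rw [Real.dist_eq, abs_lt]
          have := min_le_left d1 d2
          constructor <;> linarith [hu.1, hu.2]
        have := H1 this
        rw [Real.dist_eq, abs_lt] at this
        linarith [this.2]
      have gv : D.g x0 - h0 / 4 ≤ D.g v := by
        have : dist v x0 < d2 := by
          rw [Real.dist_eq, abs_lt]
          have := min_le_right d1 d2
          constructor <;> linarith [hv.1, hv.2]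
        have := H2 this
        rw [Real.dist_eq, abs_lt] at this
        linarith [this.1]
      have hE : D.E (x0, ε, b) = ε * (D.g v - D.f u) + D.r * (b ^ 2 - ε ^ 2) / 2 := by
        simp only [E]
        linarith
      rw [hE]
      have h1 : ε * (h0 / 2) ≤ ε * (D.g v - D.f u) :=
        mul_le_mul_of_nonneg_left (by linarith) hεp.le
      have h2 : D.r * ε ^ 2 / 2 ≤ ε * (h0 / 4) := by nlinarith [mul_pos hr hεp]
      nlinarith [mul_nonneg hr.le (sq_nonneg b)]
    · refine (min_le_right _ _).trans (le_trans ?_ (hlow b))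
      have : b0 ^ 2 ≤ b ^ 2 := by
        rw [← sq_abs b]; exact pow_le_pow_left₀ hb0p.le hb 2
      nlinarith
  all_goals
    set T : ℝ := b0 + (|K| + 1) / D.r + 1 with hT
    have hT1 : b0 ^ 2 + 2 * ((|K| + 1) / D.r) ≤ T ^ 2 := by
      have : 0 < (|K| + 1) / D.r := by positivity
      nlinarith
    have hT2 : D.r * b0 ^ 2 + 2 * (|K| + 1) ≤ D.r * T ^ 2 := by
      have := mul_le_mul_of_nonneg_left hT1 hr.le
      have e : D.r * (b0 ^ 2 + 2 * ((|K| + 1) / D.r)) = D.r * b0 ^ 2 + 2 * (|K| + 1) := by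
        field_simp
      linarith
    have hK := le_abs_self K
    have hpos : 0 ≤ D.r * b0 ^ 2 := by positivity
  · have := hlow T
    linarith
  · have := hlow (-T)
    rw [neg_sq] at this
    linarith

/-- Existence of a critical point at a positive level. -/
theorem exists_crit {x0 : ℝ} (h : D.f x0 < D.g x0) : ∃ z, D.S z = 0 ∧ 0 < D.E z := by
  obtain ⟨ε, T, c1, hT, hc1, hpath, hK1, hK2⟩ := D.start h (D.M + 2)
  set P0 : ℝ × ℝ × ℝ := (x0, ε, -T) with hP0
  set P1 : ℝ × ℝ × ℝ := (x0, ε, T) with hP1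
  set L : Set ℝ := {c | ∃ γ : ℝ → ℝ × ℝ × ℝ, Continuous γ ∧ γ 0 = P0 ∧ γ 1 = P1 ∧
    ∀ s ∈ Icc (0 : ℝ) 1, c ≤ D.E (γ s)} with hL
  have hmem : c1 ∈ L := by
    refine ⟨fun s => (x0, ε, (2 * s - 1) * T), by fun_prop, ?_, ?_, fun s _ => hpath _⟩
    · simp [hP0]
    · simp only [hP1]; norm_num
  have hub : ∀ c ∈ L, c ≤ D.M := by
    rintro c ⟨γ, hγ, h0, h1, hmin⟩
    have hivt : (0 : ℝ) ∈ (fun s => (γ s).2.2) '' Icc (0 : ℝ) 1 := by
      refine intermediate_value_Icc zero_le_one (by fun_prop) ?_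
      simp only [h0, h1, hP0, hP1]
      exact ⟨by linarith, hT.le⟩
    obtain ⟨s, hs, hs0⟩ := hivt
    have h2 := hmin s hs
    have h3 : γ s = ((γ s).1, (γ s).2.1, 0) := by
      rw [← hs0]
    rw [h3] at h2
    exact h2.trans (D.E_zero_b _ _)
  have hbdd : BddAbove L := ⟨D.M, hub⟩
  set C : ℝ := sSup L with hC
  have hCpos : 0 < C := hc1.trans_le (le_csSup hbdd hmem)
  have hCM : C ≤ D.M := csSup_le ⟨c1, hmem⟩ hub
  by_contra hno
  push Not at hno
  have hno' : ∀ z, D.E z = C → D.S z ≠ 0 := by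
    intro z hz h0
    have := hno z h0
    linarith
  obtain ⟨κ, hκ, η, hη, hη1, hgrad⟩ := D.grad_bound hCpos hno'
  obtain ⟨δ, hδ, Φ, hΦc, hΦid, hΦ⟩ := D.deform hκ hη hgrad
  obtain ⟨c, ⟨γ, hγ, h0, h1, hmin⟩, hc⟩ := exists_lt_of_lt_csSup ⟨c1, hmem⟩
    (show C - δ < sSup L by rw [← hC]; linarith)
  have hnew : C + δ ∈ L := by
    refine ⟨fun s => Φ (γ s), hΦc.comp hγ, ?_, ?_, fun s hs => hΦ _ (hc.le.trans (hmin s hs))⟩
    · simp only [h0]
      exact hΦid _ (by linarith)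
    · simp only [h1]
      exact hΦid _ (by linarith)
  have := le_csSup hbdd hnew
  linarith

/-- Existence of a rectangle with `a ≠ 0`. -/
theorem exists_rect {x0 : ℝ} (h : D.f x0 < D.g x0) : ∃ x a b : ℝ, a ≠ 0 ∧
    D.f (x + a) = D.f x + b ∧ D.g (x - D.r * b) = D.f x + D.r * a ∧
    D.g (x + a - D.r * b) = D.f x + b + D.r * a := by
  obtain ⟨⟨x, a, b⟩, hS, hE⟩ := D.exists_crit h
  have n1 := abs_nonneg (D.e1 (x, a, b))
  have n2 := abs_nonneg (D.e2 (x, a, b))
  have n3 := abs_nonneg (D.e3 (x, a, b))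
  unfold S at hS
  have z1 : D.e1 (x, a, b) = 0 := abs_eq_zero.1 (by linarith)
  have z2 : D.e2 (x, a, b) = 0 := abs_eq_zero.1 (by linarith)
  have z3 : D.e3 (x, a, b) = 0 := abs_eq_zero.1 (by linarith)
  simp only [e1, e2, e3] at z1 z2 z3
  have z3' := (mul_eq_zero.1 z3).resolve_left D.hr.ne'
  refine ⟨x, a, b, ?_, by linarith, by linarith, by linarith⟩
  rintro rfl
  have hb : b = 0 := by
    simp only [add_zero] at z3'
    linarith
  subst hb
  simp [E] at hE

end Dat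

end Pool.MP_7ec17a_gt.V
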